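import Mathlib
import Pool.Agent.H97.AS.Sch

/-!
# The asymptotic spectrum of finite schemes

The isomorphism classes of finite schemes over an algebraically closed field `k` form a semiring
`Cls k` (sum: disjoint union, product: product of schemes). We prove a duality theorem of Strassen
type for the growth rate `rate Γ = lim (deg Γ^n + δ(Γ^n))^{1/n}`: it is the maximum of `φ(Γ)` over
all real-valued invariants `φ` which are additive under disjoint unions, multiplicative under
products, monotone under closed subschemes and at most the degree on smoothable schemes. So Q1 for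
`Γ` says that all these invariants are at most the degree at `Γ`. We deduce that the growth rate is
additive for `Γ ⊔ Γ'` if and only if it is multiplicative for `Γ × Γ'`.
-/

set_option autoImplicit false

namespace Pool.Agent.Results.MP_44217d_ag.AsymptoticSpectrum

open Pool.Agent.H826R3.SM Pool.Agent.TH671.DU Pool.Agent.X308.Sq Pool.Agent.H97.AS
open TensorProduct PowerSeries

/-- `Spec A₀` is a degeneration of `Spec A`: the special fibre of a finite free `k[[t]]`-algebra
whose generic fibre is isomorphic to that of the constant family with fibre `A`. -/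
def IsDegeneration (k : Type) [Field k] (A A₀ : Type) [CommRing A] [Algebra k A] [CommRing A₀]
    [Algebra k A₀] : Prop :=
  ∃ (𝒜 : Type) (_ : CommRing 𝒜) (_ : Algebra k⟦X⟧ 𝒜), Module.Finite k⟦X⟧ 𝒜 ∧
    Module.Free k⟦X⟧ 𝒜 ∧
    Nonempty ((LaurentSeries k ⊗[k⟦X⟧] 𝒜) ≃ₐ[LaurentSeries k]
      (LaurentSeries k ⊗[k⟦X⟧] (k⟦X⟧ ⊗[k] A))) ∧
    ∃ π : 𝒜 →+* A₀, Function.Surjective π ∧
      (∀ c : k⟦X⟧, π (algebraMap k⟦X⟧ 𝒜 c) = algebraMap k A₀ (PowerSeries.constantCoeff c)) ∧
      ∀ x, π x = 0 → ∃ y, x = (PowerSeries.X : k⟦X⟧) • y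

/-- An invariant: a semiring homomorphism from the semiring of finite schemes to the real numbers
(that is, an additive and multiplicative function with value `1` at a reduced point) which is
monotone under closed subschemes and at most the degree on smoothable schemes. -/
def IsInvariant (k : Type) [Field k] (φ : Cls k →+* ℝ) : Prop :=
  (∀ (A B : Type) [CommRing A] [Algebra k A] [Module.Finite k A] [CommRing B] [Algebra k B]
    [Module.Finite k B] (f : B →ₐ[k] A), Function.Surjective f → φ (cls k A) ≤ φ (cls k B)) ∧
  ∀ (A : Type) [CommRing A] [Algebra k A] [Module.Finite k A], Smoothable k A →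
    φ (cls k A) ≤ Module.finrank k A

/-- `Γ` is below `Γ'` if `rate (Γ × Γ'') ≤ rate (Γ' × Γ'')` for all finite schemes `Γ''`. -/
def Below (k : Type) [Field k] [IsAlgClosed k] (a b : Cls k) : Prop :=
  ∀ c : Cls k, growth (a * c) ≤ growth (b * c)

/-- The spectral points: the semiring homomorphisms which are monotone for the relation `Below`. -/
def IsPoint (k : Type) [Field k] [IsAlgClosed k] (φ : Cls k →+* ℝ) : Prop :=
  ∀ a b : Cls k, Below k a b → φ a ≤ φ b

/-- (2) Spectral points are invariants, and they are monotone under images (subquotients of the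
algebras) and degenerations. -/
def Points (k : Type) [Field k] [IsAlgClosed k] : Prop :=
  ∀ φ : Cls k →+* ℝ, IsPoint k φ → IsInvariant k φ ∧
    (∀ (A B : Type) [CommRing A] [Algebra k A] [Module.Finite k A] [CommRing B] [Algebra k B]
      [Module.Finite k B], Subquotient k A B → φ (cls k A) ≤ φ (cls k B)) ∧
    ∀ (A A₀ : Type) [CommRing A] [Algebra k A] [Module.Finite k A] [CommRing A₀] [Algebra k A₀]
      [Module.Finite k A₀], IsDegeneration k A A₀ → φ (cls k A₀) ≤ φ (cls k A)

/-- (5) Q1 in terms of the invariants. -/
def Criterion (k : Type) [Field k] [IsAlgClosed k] : Prop :=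
  (∀ (A : Type) [CommRing A] [Algebra k A] [Module.Finite k A] [Nontrivial A],
    (QOne k A ↔ ∀ φ : Cls k →+* ℝ, IsInvariant k φ → φ (cls k A) ≤ Module.finrank k A) ∧
    (QOne k A ↔ ∀ φ : Cls k →+* ℝ, IsPoint k φ → φ (cls k A) ≤ Module.finrank k A)) ∧
  IsInvariant k (degree k) ∧
  ((∀ (A : Type) [CommRing A] [Algebra k A] [Module.Finite k A] [Nontrivial A], QOne k A) ↔
    ∀ φ : Cls k →+* ℝ, IsPoint k φ ↔ φ = degree k)

/-- (6) The growth rate is additive for `Γ ⊔ Γ'` if and only if it is multiplicative for
`Γ^i × Γ'^j`, for one pair, or for all pairs, of exponents `i, j ≥ 1`. -/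
def AdditiveMultiplicative (k : Type) [Field k] [IsAlgClosed k] : Prop :=
  ∀ (A B : Type) [CommRing A] [Algebra k A] [Module.Finite k A] [Nontrivial A] [CommRing B]
    [Algebra k B] [Module.Finite k B] [Nontrivial B],
    (rate k (A × B) = rate k A + rate k B ↔ rate k (A ⊗[k] B) = rate k A * rate k B) ∧
    ∀ i j : ℕ, 1 ≤ i → 1 ≤ j → (rate k (A × B) = rate k A + rate k B ↔
      rate k (Pow k A i ⊗[k] Pow k B j) = rate k A ^ i * rate k B ^ j)

/-- `k` is an algebraically closed field, `cls k A` is the class of `Spec A` in the semiring `Cls k`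
of isomorphism classes of finite schemes over `k`. (0) The function `growth` on `Cls k` is the growth
rate `rate k A`, the limit (and infimum) of `(deg Γ^n + δ(Γ^n))^{1/n}`, `Γ = Spec A`. (1) Invariants
are at most the growth rate. (2) Spectral points are invariants with further properties. (3) The
growth rate is the maximum over all invariants, and over all spectral points. (4) `Γ` is below `Γ'`
if and only if `φ(Γ) ≤ φ(Γ')` for all spectral points. (5) Q1 holds for `Γ` if and only if
`φ(Γ) ≤ deg Γ` for all invariants (spectral points) `φ`; Q1 holds for all finite schemes if and only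
if the degree is the only spectral point. (6): see the definition. -/
theorem result (k : Type) [Field k] [IsAlgClosed k] :
    (∀ (A : Type) [CommRing A] [Algebra k A] [Module.Finite k A],
      growth (cls k A) = rate k A) ∧
    (∀ φ : Cls k →+* ℝ, IsInvariant k φ → ∀ a, φ a ≤ growth a) ∧
    Points k ∧
    (∀ a : Cls k, IsGreatest {y : ℝ | ∃ φ : Cls k →+* ℝ, IsInvariant k φ ∧ φ a = y} (growth a) ∧
      IsGreatest {y : ℝ | ∃ φ : Cls k →+* ℝ, IsPoint k φ ∧ φ a = y} (growth a)) ∧
    (∀ a b : Cls k, Below k a b ↔ ∀ φ : Cls k →+* ℝ, IsPoint k φ → φ a ≤ φ b) ∧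
    Criterion k ∧ AdditiveMultiplicative k := by
  have hR := md_isRank (k := k)
  have hG := rho_gr hR
  have hnt : (1 : Cls k) ≠ 0 := fun h => by
    have h1 := md_one (k := k)
    rw [h, hR.zero] at h1
    exact absurd h1 (by norm_num)
  have hnz : ∀ (A : Type) [CommRing A] [Algebra k A] [Module.Finite k A] [Nontrivial A],
      cls k A ≠ 0 := fun A _ _ _ _ h => by
    have h1 := (cls_eq_zero_iff (k := k) A).1 h
    exact not_subsingleton A h1
  -- invariants are bounded by the growth rate
  have h1 : ∀ φ : Cls k →+* ℝ, IsInvariant k φ → ∀ a, φ a ≤ growth a := by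
    intro φ hφ a
    have hnn : ∀ a, 0 ≤ φ a := by
      intro a
      refine cls_ind (fun A _ _ _ => ?_) a
      have h := hφ.1 PUnit A
        { toFun := fun _ => PUnit.unit
          map_one' := rfl
          map_mul' := fun _ _ => rfl
          map_zero' := rfl
          map_add' := fun _ _ => rfl
          commutes' := fun _ => rfl } (fun _ => ⟨0, rfl⟩)
      have h0 : φ (cls k PUnit) = 0 := by
        rw [← cls_zero, map_zero]
      rw [h0] at h
      exact h
    have hmd : ∀ a, φ a ≤ md a := by
      intro a
      refine cls_ind (fun A _ _ _ => ?_) a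
      rw [md_cls]
      obtain ⟨D, hD⟩ := exists_fam (k := k) A
      obtain ⟨D', hD', B, i1, i2, i3, hB, hBD, f, hf⟩ := (mdeg_spec hD).inSmoothable
      refine (hφ.1 A B f hf).trans ((hφ.2 B hB).trans ?_)
      rw [hBD]
      exact_mod_cast hD'
    rw [growth_eq]
    refine le_rho (hnn a) fun n => ?_
    rw [← map_pow]
    exact hmd _
  -- spectral points
  have hbelow : ∀ a b : Cls k, Below k a b ↔ Dom md a b := by
    intro a b
    unfold Below Dom
    simp only [growth_eq]
  have h2a : ∀ φ : Cls k →+* ℝ, IsPoint k φ → IsInvariant k φ := by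
    intro φ hφ
    have hsub : ∀ (A B : Type) [CommRing A] [Algebra k A] [Module.Finite k A] [CommRing B]
        [Algebra k B] [Module.Finite k B], Subquotient k A B → φ (cls k A) ≤ φ (cls k B) :=
      fun A B _ _ _ _ _ _ h => hφ _ _ (dom_of_md_le (md_le_of_subquotient h))
    refine ⟨fun A B _ _ _ _ _ _ f hf => hsub A B ⟨⊤, f.comp (Subalgebra.val ⊤), ?_⟩, ?_⟩
    · intro a
      obtain ⟨b, rfl⟩ := hf a
      exact ⟨⟨b, Algebra.mem_top⟩, rfl⟩
    · intro A _ _ _ hA
      have h3 : Below k (cls k A) ((Module.finrank k A : ℕ) : Cls k) := by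
        refine dom_of_md_le fun c => ?_
        rw [hR.nat_mul]
        refine (md_mul_le _ _).trans (Nat.mul_le_mul_right _ ?_)
        rw [md_cls]
        exact mdeg_le (InSmoothable.fam ⟨A, inferInstance, inferInstance, inferInstance, hA, rfl,
          AlgHom.id k A, Function.surjective_id⟩)
      have := hφ _ _ h3
      rwa [map_natCast] at this
  have h2 : Points k := by
    intro φ hφ
    exact ⟨h2a φ hφ, fun A B _ _ _ _ _ _ h => hφ _ _ (dom_of_md_le (md_le_of_subquotient h)),
      fun A A₀ _ _ _ _ _ _ h => hφ _ _ (dom_of_md_le (md_le_of_deg h))⟩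
  have hdual : ∀ a : Cls k, ∃ φ : Cls k →+* ℝ, IsPoint k φ ∧ φ a = growth a := by
    intro a
    obtain ⟨φ, -, h4, -, h5⟩ := duality hR a hnt
    exact ⟨φ, fun a b h => h4 _ _ ((hbelow a b).1 h), by rw [h5, growth_eq]⟩
  have h3 : ∀ a : Cls k,
      IsGreatest {y : ℝ | ∃ φ : Cls k →+* ℝ, IsInvariant k φ ∧ φ a = y} (growth a) ∧
      IsGreatest {y : ℝ | ∃ φ : Cls k →+* ℝ, IsPoint k φ ∧ φ a = y} (growth a) := by
    intro a
    obtain ⟨φ, h4, h5⟩ := hdual a
    refine ⟨⟨⟨φ, h2a φ h4, h5⟩, ?_⟩, ⟨⟨φ, h4, h5⟩, ?_⟩⟩
    · rintro _ ⟨ψ, h6, rfl⟩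
      exact h1 ψ h6 a
    · rintro _ ⟨ψ, h6, rfl⟩
      exact h1 ψ (h2a ψ h6) a
  have h4 : ∀ a b : Cls k, Below k a b ↔ ∀ φ : Cls k →+* ℝ, IsPoint k φ → φ a ≤ φ b := by
    intro a b
    refine ⟨fun h φ hφ => hφ _ _ h, fun h c => ?_⟩
    obtain ⟨φ, h5, h6⟩ := hdual (a * c)
    have h7 : 0 ≤ φ c := by
      have := h5 0 c (fun d => by
        rw [zero_mul]
        rw [growth_eq, growth_eq, rho_zero hR]
        exact rho_nonneg hR _)
      rwa [map_zero] at this
    rw [← h6, map_mul]
    refine (mul_le_mul_of_nonneg_right (h φ h5) h7).trans ?_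
    rw [← map_mul]
    exact h1 φ (h2a φ h5) _
  -- Q1
  have hq : ∀ (A : Type) [CommRing A] [Algebra k A] [Module.Finite k A] [Nontrivial A],
      QOne k A ↔ growth (cls k A) ≤ Module.finrank k A := by
    intro A _ _ _ _
    rw [growth_cls, qOne_iff_rate]
    exact ⟨fun h => h.le, fun h => le_antisymm h (finrank_le_rate A)⟩
  have hdegle : ∀ a : Cls k, degree k a ≤ growth a := by
    intro a
    refine cls_ind (fun A _ _ _ => ?_) a
    rcases subsingleton_or_nontrivial A with h | h
    · rw [(cls_eq_zero_iff (k := k) A).2 h, map_zero, growth_eq]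
      exact rho_nonneg hR _
    · exact finrank_le_rate A
  have h5 : Criterion k := by
    refine ⟨fun A _ _ _ _ => ⟨?_, ?_⟩, ⟨?_, fun A _ _ _ _ => le_rfl⟩, ?_⟩
    · rw [hq]
      constructor
      · intro h φ hφ
        exact (h1 φ hφ _).trans h
      · intro h
        obtain ⟨φ, h6, h7⟩ := hdual (cls k A)
        rw [← h7]
        exact h φ (h2a φ h6)
    · rw [hq]
      constructor
      · intro h φ hφ
        exact (h1 φ (h2a φ hφ) _).trans h
      · intro h
        obtain ⟨φ, h6, h7⟩ := hdual (cls k A)
        rw [← h7]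
        exact h φ h6
    · intro A B _ _ _ _ _ _ f hf
      rw [degree_cls, degree_cls]
      exact_mod_cast LinearMap.finrank_le_finrank_of_surjective (f := f.toLinearMap) hf
    · constructor
      · intro h
        -- the growth rate is the degree
        have h6 : ∀ a : Cls k, growth a = degree k a := by
          intro a
          refine le_antisymm ?_ (hdegle a)
          refine cls_ind (fun A _ _ _ => ?_) a
          rcases subsingleton_or_nontrivial A with h' | h'
          · rw [(cls_eq_zero_iff (k := k) A).2 h', map_zero, growth_eq, rho_zero hR]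
          · exact (hq A).1 (h A)
        have h8 : ∀ a : Cls k, ∃ n : ℕ, degree k a = n := by
          intro a
          refine cls_ind (fun A _ _ _ => ?_) a
          exact ⟨_, rfl⟩
        intro φ
        constructor
        · intro hφ
          ext a
          obtain ⟨n, hn⟩ := h8 a
          have hb : ∀ a b : Cls k, degree k a = degree k b → φ a ≤ φ b := by
            intro a b hab
            refine hφ a b fun c => ?_
            rw [h6, h6, map_mul, map_mul, hab]
          have h9 : degree k ((n : ℕ) : Cls k) = n := map_natCast _ _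
          have h10 := hb a n (by rw [hn, h9])
          have h11 := hb n a (by rw [hn, h9])
          rw [map_natCast] at h10 h11
          rw [hn]
          exact le_antisymm h10 h11
        · rintro rfl
          intro a b hab
          have := hab 1
          rwa [mul_one, mul_one, h6, h6] at this
      · intro h A _ _ _ _
        rw [hq]
        obtain ⟨φ, h6, h7⟩ := hdual (cls k A)
        rw [← h7, (h φ).1 h6, degree_cls]
  -- additivity and multiplicativity
  have hone : ∀ a : Cls k, a ≠ 0 → 1 ≤ growth a := by
    intro a ha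
    rw [growth_eq]
    exact hG.one_le (rho_isRel hR) ha
  have hadd : ∀ a b : Cls k, growth (a + b) ≤ growth a + growth b := by
    intro a b
    rw [growth_eq, growth_eq, growth_eq]
    exact hG.add_le a b
  have hmulle : ∀ a b : Cls k, growth (a * b) ≤ growth a * growth b := by
    intro a b
    rw [growth_eq, growth_eq, growth_eq]
    exact hG.mul_le a b
  have hpow : ∀ (a : Cls k) (n : ℕ), growth (a ^ n) = growth a ^ n := by
    intro a n
    rw [growth_eq, growth_eq]
    exact hG.pow a n
  have key : ∀ a b : Cls k, a ≠ 0 → b ≠ 0 → ∀ i j : ℕ, 1 ≤ i → 1 ≤ j →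
      (growth (a + b) = growth a + growth b ↔
        growth (a ^ i * b ^ j) = growth a ^ i * growth b ^ j) := by
    intro a b ha hb i j hi hj
    have hga := hone a ha
    have hgb := hone b hb
    constructor
    · intro h
      obtain ⟨φ, h6, h7⟩ := hdual (a + b)
      have h8 := h1 φ (h2a φ h6)
      rw [map_add, h] at h7
      have h9 : φ a = growth a := le_antisymm (h8 a) (by linarith [h8 b])
      have h10 : φ b = growth b := le_antisymm (h8 b) (by linarith [h8 a])
      apply le_antisymm
      · refine (hmulle _ _).trans ?_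
        rw [hpow, hpow]
      · rw [← h9, ← h10, ← map_pow, ← map_pow, ← map_mul]
        exact h8 _
    · intro h
      obtain ⟨φ, h6, h7⟩ := hdual (a ^ i * b ^ j)
      have h8 := h1 φ (h2a φ h6)
      rw [map_mul, map_pow, map_pow, h] at h7
      have hnn : ∀ c : Cls k, 0 ≤ φ c := by
        intro c
        have := h6 0 c (fun d => by
          rw [zero_mul]
          rw [growth_eq, growth_eq, rho_zero hR]
          exact rho_nonneg hR _)
        rwa [map_zero] at this
      have h11 : (φ a) ^ i ≤ growth a ^ i := pow_le_pow_left₀ (hnn a) (h8 a) i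
      have h12 : (φ b) ^ j ≤ growth b ^ j := pow_le_pow_left₀ (hnn b) (h8 b) j
      have hpa : 0 < growth a ^ i := pow_pos (by linarith) i
      have hpb : 0 < growth b ^ j := pow_pos (by linarith) j
      have h13 : growth a ^ i ≤ φ a ^ i := by
        by_contra hcon
        push Not at hcon
        have : φ a ^ i * φ b ^ j < growth a ^ i * growth b ^ j :=
          mul_lt_mul hcon h12 (by
            by_contra hz
            push Not at hz
            have hz' : φ b ^ j = 0 := le_antisymm hz (pow_nonneg (hnn b) j)
            rw [hz', mul_zero] at h7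
            exact absurd h7.symm (mul_pos hpa hpb).ne') hpa.le
        exact absurd h7 this.ne
      have h14 : growth b ^ j ≤ φ b ^ j := by
        by_contra hcon
        push Not at hcon
        have : φ a ^ i * φ b ^ j < growth a ^ i * growth b ^ j :=
          mul_lt_mul_of_le_of_lt_of_nonneg_of_pos h11 hcon (pow_nonneg (hnn b) j) hpa
        exact absurd h7 this.ne
      have h15 : growth a ≤ φ a := by
        by_contra hcon
        push Not at hcon
        exact absurd h13 (not_le.2 (pow_lt_pow_left₀ hcon (hnn a) (by omega)))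
      have h16 : growth b ≤ φ b := by
        by_contra hcon
        push Not at hcon
        exact absurd h14 (not_le.2 (pow_lt_pow_left₀ hcon (hnn b) (by omega)))
      refine le_antisymm (hadd a b) ?_
      calc growth a + growth b ≤ φ a + φ b := add_le_add h15 h16
        _ = φ (a + b) := (map_add φ a b).symm
        _ ≤ growth (a + b) := h8 _
  have h6 : AdditiveMultiplicative k := by
    intro A B _ _ _ _ _ _ _ _
    have hA := hnz A
    have hB := hnz B
    refine ⟨?_, fun i j hi hj => ?_⟩
    · have := key _ _ hA hB 1 1 le_rfl le_rfl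
      rw [pow_one, pow_one, pow_one, pow_one] at this
      exact this
    · have := key _ _ hA hB i j hi hj
      rw [← cls_pow, ← cls_pow] at this
      exact this
  exact ⟨fun A _ _ _ => growth_cls A, h1, h2, h3, h4, h5, h6⟩

end Pool.Agent.Results.MP_44217d_ag.AsymptoticSpectrum
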