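import Pool.Agent.H37.CU.Mat
import Pool.Agent.H91.MM.Gauss

/-!
# Cubature formulas, elementary symmetric polynomials, basis generating polynomials of matroids

Let `Φ` be a form of degree `s` (in divided powers) with apolar scheme `Γ`. If the combination of the
values at `N` points with suitable weights vanishes on all forms of degree less than `s` and is `Φ`
on the forms of degree `s` then `(deg Γ)^n + δ(Γ^n) ≤ N^n` for all `n`; if moreover `N ≤ deg Γ` then
`Γ` is smoothable, `δ(Γ^n) = 0` for all `n` and Q1 holds for `Γ`.

1. The elementary symmetric polynomial `e_s(x_1, …, x_n)`: the characteristic vectors of the subsets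
of `{1, …, n}` with at most `s / 2` or with more than `n - s / 2` elements are the points of such a
formula (Lagrange interpolation in the size of the subset), and their number is the degree
`∑_j binom(n, min(j, s - j))` of the apolar scheme.

2. The basis generating polynomial of a matroid: the characteristic vectors of the flats with the
values of the Möbius function as weights. So `(deg Γ)^n + δ(Γ^n)` is at most the `n`-th power of the
number of flats.

3. The `q`-analogue of the elementary symmetric polynomials: let `v_1, …, v_N` represent all the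
points of the projective space of an `n`-dimensional vector space over a field with `q` elements,
and let `F` be the sum of the squarefree monomials of degree `s` whose vectors are linearly
independent (for `s = n` the basis generating polynomial of the projective geometry). The degree of
the apolar scheme is `∑_j binom(n, min(j, s - j))_q` (Gaussian binomial coefficients) and the
characteristic vectors of the subspaces of dimension at most `s / 2` or more than `n - s / 2` are
the points of a formula.
-/

set_option autoImplicit false

namespace Pool.Agent.Results.MP_44217d_ag.CubatureAndMatroids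

open Pool.Agent.H826R3.SM Pool.Agent.H37.CU Pool.Agent.H91.MM MvPolynomial

/-- `Spec A` is smoothable, its powers have smoothability defect zero, and Q1 holds. -/
def Good (k : Type) [Field k] (A : Type) [CommRing A] [Algebra k A] : Prop :=
  Smoothable k A ∧ QOne k A ∧ ∀ n : ℕ, defect k (Pow k A n) = 0

/-- `(deg Γ)^m + δ(Γ^m) ≤ N^m` for all `m`. -/
def PowersIn (k : Type) [Field k] (A : Type) [CommRing A] [Algebra k A] (N : ℕ) : Prop :=
  ∀ m : ℕ, Module.finrank k A ^ m + defect k (Pow k A m) ≤ N ^ m

theorem result (k : Type) [Field k] [IsAlgClosed k] :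
    (∀ (σ : Type) [Finite σ] (s : ℕ) (Φ : MvPolynomial σ k →ₗ[k] k), IsDualForm s Φ → Φ ≠ 0 →
      ∀ (N : ℕ) (P : Fin N → σ → k) (α : Fin N → k), IsCubature s Φ P α →
        PowersIn k (ApolarAlg Φ) N ∧
        (N ≤ Module.finrank k (ApolarAlg Φ) → Good k (ApolarAlg Φ))) ∧
    (∀ n s : ℕ, s ≤ n → (n.factorial : k) ≠ 0 →
      Module.finrank k (ApolarAlg (apolar (esymm (Fin n) k s))) =
        ∑ j ∈ Finset.range (s + 1), n.choose (min j (s - j)) ∧
      Good k (ApolarAlg (apolar (esymm (Fin n) k s)))) ∧
    (∀ (n : ℕ) (M : Matroid (Fin n)), PowersIn k (ApolarAlg (apolar (basisPoly k M)))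
      (numFlats M)) ∧
    (∀ (K V : Type) [Field K] [Finite K] [AddCommGroup V] [Module K V] [Finite V] (N : ℕ)
      (v : Fin N → V), AllPoints K v → ∀ n : ℕ, n = Module.finrank K V →
        (Nat.card (Matrix.GeneralLinearGroup (Fin n) K) : k) ≠ 0 → ∀ s ≤ n,
          Module.finrank k (ApolarAlg (apolar (indepPoly k (K := K) v s))) =
            ∑ j ∈ Finset.range (s + 1), gaussBinom (Nat.card K) n (min j (s - j)) ∧
          Good k (ApolarAlg (apolar (indepPoly k (K := K) v s)))) := by
  have hinf : Infinite k := IsAlgClosed.instInfinite
  refine ⟨?_, ?_, ?_, ?_⟩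
  · intro σ _ s Φ hΦ h0 N P α H
    have := Fintype.ofFinite σ
    have hfin : Module.Finite k (ApolarAlg Φ) := finite_apolar hΦ
    have hnt : Nontrivial (ApolarAlg Φ) := nontrivial_apolar h0
    have hsec := hasSec_of_cubature hΦ H
    refine ⟨fun m => ?_, fun hN => ?_⟩
    · have := defect_le_of_hasSec hsec m
      rwa [Fintype.card_fin] at this
    · obtain ⟨h1, h2, h3, -⟩ := of_hasSec hsec (by rwa [Fintype.card_fin])
      exact ⟨h1, h3, h2⟩
  · intro n s hs hk
    obtain ⟨h1, h2, h3, h4⟩ := esymm_main k n s hs hk
    exact ⟨h1, h2, h4, h3⟩
  · intro n M m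
    have hfin : Module.Finite k (ApolarAlg (apolar (basisPoly k M))) :=
      finite_apolar (basisPoly_dual M)
    have hnt : Nontrivial (ApolarAlg (apolar (basisPoly k M))) :=
      nontrivial_apolar (basisPoly_ne M)
    obtain ⟨P, α, H⟩ := matroid_cubature k M
    have := defect_le_of_hasSec (hasSec_of_cubature (basisPoly_dual M) H) m
    rwa [Fintype.card_fin] at this
  · intro K V _ _ _ _ _ N v hv n hn hk s hs
    subst hn
    obtain ⟨h1, h2, h3, h4⟩ := main k v hv hs (distinct_of_GL hk)
    refine ⟨h1.trans (Finset.sum_congr rfl fun j hj => numSub_eq ?_), h2, h4, h3⟩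
    rw [Finset.mem_range] at hj
    omega

end Pool.Agent.Results.MP_44217d_ag.CubatureAndMatroids
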