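import Pool.Agent.H37.CU.Lower
import Pool.Agent.H37.CU.MForm
import Pool.Graph.R_seed8.N86.SQ.Rate

/-!
# Compressed apolar schemes become smoothable after adding squares of new variables

For a form `Φ` of degree `s` (in divided powers) let `Γ_Φ` be its apolar scheme, and `Γ_{Φ,c}` the
apolar scheme of `Φ + y₁² + ⋯ + y_c²` with new variables `y_l`. Then `deg Γ_{Φ,c} = deg Γ_Φ + c`.
If `Φ` is compressed (no nonzero form of degree at most `s / 2` annihilates `Φ`; for cubic forms this
says that `Φ` depends on all its variables) and `deg Γ_Φ + c` is larger than `s` times the Waring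
rank of `Φ` then `Γ_{Φ,c}` is smoothable. On the other hand `deg Γ_Φ^n + δ(Γ_Φ^n)` is at most
`deg Γ_{Φ,c}^n + δ(Γ_{Φ,c}^n)`, so that at least `δ(Γ_Φ)` squares are needed. For the trilinear
forms of tensors `T ∈ (K^v)^{⊗ 3}` with algebraically independent entries the number of squares
needed is between `v² / 3 - 6 v - 2` and `8 v² - 6 v - 2`.

Proof: for a cubature formula for `Φ` with `N = deg Γ_{Φ,c}` points and nonzero weights, the
space of values of the polynomials of degree at most `s / 2` is so small, and so nearly isotropic for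
the weighted bilinear form on `k^N`, that its orthogonal complement contains `c` orthonormal vectors;
these are the coordinates `y_l` of the `N` points, of weight `s / 2`.
-/

set_option autoImplicit false

namespace Pool.Agent.Results.MP_44217d_ag.StableSmoothability

open Pool.Agent.H826R3.SM Pool.Agent.TH671.SD Pool.Agent.K7.H1.SD Pool.Agent.H37.CU

/-- `Spec A` is smoothable, its powers have smoothability defect zero, and Q1 holds. -/
def Good (k : Type) [Field k] (A : Type) [CommRing A] [Algebra k A] : Prop :=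
  Smoothable k A ∧ QOne k A ∧ ∀ n : ℕ, defect k (Pow k A n) = 0

/-- The coordinate ring of `Γ_{Φ,c}`, the apolar algebra of `Φ + y₁² + ⋯ + y_c²`. -/
abbrev SqAlg {k σ : Type} [Field k] (Φ : MvPolynomial σ k →ₗ[k] k) (c : ℕ) : Type :=
  ApolarAlg (quadSum Φ c)

/-- The results for all dual forms over `k`. -/
def Squares (k : Type) [Field k] : Prop :=
  ∀ (σ : Type) [Finite σ] (s : ℕ) (Φ : MvPolynomial σ k →ₗ[k] k), 1 ≤ s → IsDualForm s Φ → Φ ≠ 0 →
    ∀ c : ℕ, Module.finrank k (SqAlg Φ c) = Module.finrank k (ApolarAlg Φ) + c ∧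
      (∀ n : ℕ, Module.finrank k (ApolarAlg Φ) ^ n + defect k (Pow k (ApolarAlg Φ) n) ≤
        Module.finrank k (SqAlg Φ c) ^ n + defect k (Pow k (SqAlg Φ c) n)) ∧
      (Smoothable k (SqAlg Φ c) → defect k (ApolarAlg Φ) ≤ c) ∧
      ((2 : k) ≠ 0 → Compressed s Φ →
        s * waringRank s Φ + 1 ≤ Module.finrank k (SqAlg Φ c) → Good k (SqAlg Φ c))

/-- The results for trilinear forms with algebraically independent coefficients. -/
def Trilinear (K : Type) [Field K] [CharZero K] : Prop :=
  ∀ (v : ℕ) (T : (Fin 3 → Fin v) → K), 1 ≤ v → AlgebraicIndependent ℚ T →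
    Compressed 3 (mform T) ∧ Module.finrank K (ApolarAlg (mform T)) = 6 * v + 2 ∧ ∀ c : ℕ,
      (8 * v ^ 2 ≤ 6 * v + 2 + c → Good K (SqAlg (mform T) c)) ∧
      (3 * (6 * v + 2 + c) < v ^ 2 → ¬ Smoothable K (SqAlg (mform T) c))

theorem result :
    (∀ (k : Type) [Field k] [IsAlgClosed k], Squares k) ∧
    (∀ v : ℕ, ∃ T : (Fin 3 → Fin v) → ℂ, AlgebraicIndependent ℚ T) ∧
    (∀ (K : Type) [Field K] [IsAlgClosed K] [CharZero K], Trilinear K) := by
  have main : ∀ (k : Type) [Field k] [IsAlgClosed k] (σ : Type) [Finite σ] (s : ℕ)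
      (Φ : MvPolynomial σ k →ₗ[k] k), 1 ≤ s → IsDualForm s Φ → Φ ≠ 0 → ∀ c : ℕ,
      (2 : k) ≠ 0 → Compressed s Φ → HasCub s Φ (Module.finrank k (ApolarAlg Φ) + c) →
          Smoothable k (ApolarAlg (quadSum Φ c)) ∧ QOne k (ApolarAlg (quadSum Φ c)) ∧
          ∀ n : ℕ, defect k (Pow k (ApolarAlg (quadSum Φ c)) n) = 0 := by
    intro k _ _ σ _ s Φ hs hΦ h0 c h2 hc hcub
    have := Fintype.ofFinite σ
    have hinf : Infinite k := IsAlgClosed.instInfinite
    have hfin : Module.Finite k (ApolarAlg Φ) := finite_apolar hΦ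
    have hfin' : Module.Finite k (ApolarAlg (quadSum Φ c)) := finite_quadSum hΦ
    have hnt : Nontrivial (ApolarAlg Φ) := nontrivial_apolar h0
    have hdim := finrank_quadSum (c := c) hs hΦ h0
    have hpos : 0 < Module.finrank k (ApolarAlg Φ) := Module.finrank_pos
    have hnt' : Nontrivial (ApolarAlg (quadSum Φ c)) :=
      Module.nontrivial_of_finrank_pos (R := k) (by omega)
    have hsec := hasSec_stable h2 hΦ hc hs hcub
    obtain ⟨h3, h4, h5, -⟩ := of_hasSec hsec (by rw [Fintype.card_fin, hdim])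
    exact ⟨h3, h5, h4⟩
  have low : ∀ (k : Type) [Field k] [IsAlgClosed k] (σ : Type) [Finite σ] (s : ℕ)
      (Φ : MvPolynomial σ k →ₗ[k] k), 1 ≤ s → IsDualForm s Φ → Φ ≠ 0 → ∀ c : ℕ,
      Module.finrank k (ApolarAlg (quadSum Φ c)) = Module.finrank k (ApolarAlg Φ) + c ∧
      (∀ n : ℕ, Module.finrank k (ApolarAlg Φ) ^ n + defect k (Pow k (ApolarAlg Φ) n) ≤
        (Module.finrank k (ApolarAlg Φ) + c) ^ n +
          defect k (Pow k (ApolarAlg (quadSum Φ c)) n)) := by
    intro k _ _ σ _ s Φ hs hΦ h0 c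
    have := Fintype.ofFinite σ
    have hinf : Infinite k := IsAlgClosed.instInfinite
    have hfin : Module.Finite k (ApolarAlg Φ) := finite_apolar hΦ
    have hfin' : Module.Finite k (ApolarAlg (quadSum Φ c)) := finite_quadSum hΦ
    have hdim := finrank_quadSum (c := c) hs hΦ h0
    refine ⟨hdim, fun n => ?_⟩
    rw [← hdim]
    exact lower_quadSum n
  refine ⟨?_, ?_, ?_⟩
  · intro k _ _ σ _ s Φ hs hΦ h0 c
    have := Fintype.ofFinite σ
    have hinf : Infinite k := IsAlgClosed.instInfinite
    have hfin : Module.Finite k (ApolarAlg Φ) := finite_apolar hΦ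
    have hfin' : Module.Finite k (ApolarAlg (quadSum Φ c)) := finite_quadSum hΦ
    obtain ⟨h1, h2⟩ := low k σ s Φ hs hΦ h0 c
    refine ⟨h1, fun n => by rw [h1]; exact h2 n, fun hsm => ?_, fun hk hc hN => ?_⟩
    · have h3 := (subquot_quadSum (c := c) (Φ := Φ)).defect_le
      have h4 : Pool.Agent.TH671.DU.mdeg k (ApolarAlg (quadSum Φ c)) ≤
          Module.finrank k (ApolarAlg (quadSum Φ c)) :=
        Pool.Agent.TH671.DU.mdeg_le (Pool.Agent.N86.SQ.Smoothable.fam hsm)
      rw [← Pool.Agent.TH671.DU.fadd k (ApolarAlg (quadSum Φ c))] at h4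
      omega
    · rw [h1] at hN
      exact main k σ s Φ hs hΦ h0 c hk hc (hasCub_waringRank hΦ h0 hN)
  · intro v
    obtain ⟨x, hx⟩ := exists_indep_complex
    let e := Encodable.encode' (Fin 3 → Fin v)
    exact ⟨fun a => x (e a), hx.comp (fun p => e p) e.injective⟩
  · intro K _ _ _ v T hv hT
    refine ⟨compressed_mform hv hT, finrank_of_indep hv hT, fun c => ?_⟩
    have hdim : Module.finrank K (ApolarAlg (mform T)) = 6 * v + 2 := finrank_of_indep hv hT
    have hinf : Infinite K := IsAlgClosed.instInfinite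
    have hfin : Module.Finite K (ApolarAlg (mform T)) := finite_mform T
    have hfin' : Module.Finite K (ApolarAlg (quadSum (mform T) c)) :=
      finite_quadSum (isDualForm_mform T)
    refine ⟨fun h => ?_, fun h hsm => ?_⟩
    · refine main K _ 3 (mform T) (by norm_num) (isDualForm_mform T) (mform_ne hv hT) c
        two_ne_zero (compressed_mform hv hT) ?_
      obtain ⟨P, α, H⟩ := cubature_mform (TRk_sq T)
      obtain ⟨M, hM, H'⟩ := hasCub_of_cubature H
      rw [Fintype.card_prod, Fintype.card_fin, Fintype.card_finset, Fintype.card_fin] at hM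
      refine H'.mono (H'.pos (isDualForm_mform T) (mform_ne hv hT)) ?_
      rw [hdim]
      omega
    · have h1 := (low K _ 3 (mform T) (by norm_num) (isDualForm_mform T) (mform_ne hv hT) c).2 1
      have h1' := (low K _ 3 (mform T) (by norm_num) (isDualForm_mform T) (mform_ne hv hT) c).1
      have h2 : defect K (Pow K (ApolarAlg (quadSum (mform T) c)) 1) = 0 := by
        have h4 : Pool.Agent.TH671.DU.mdeg K (Pow K (ApolarAlg (quadSum (mform T) c)) 1) ≤
            Module.finrank K (Pow K (ApolarAlg (quadSum (mform T) c)) 1) :=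
          Pool.Agent.TH671.DU.mdeg_le (Pool.Agent.N86.SQ.Smoothable.pow_fam hsm 1)
        rw [← Pool.Agent.TH671.DU.fadd K (Pow K (ApolarAlg (quadSum (mform T) c)) 1)] at h4
        omega
      have h3 := power_lower (n := 1) hv hT
      have h4 : dlT T 1 = defect K (Pow K (ApolarAlg (mform T)) 1) := rfl
      rw [h2, hdim] at h1
      rw [h4, Nat.choose_one_right, mul_one, Nat.choose_one_right, pow_one, pow_one] at h3
      rw [pow_one, pow_one, add_zero] at h1
      have h5 : v ^ 3 ≤ 3 * v * (6 * v + 2 + c) := h3.trans (Nat.mul_le_mul_left _ h1)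
      have h6 : v * (3 * (6 * v + 2 + c)) < v * v ^ 2 := Nat.mul_lt_mul_of_pos_left h hv
      nlinarith [h5, h6]

end Pool.Agent.Results.MP_44217d_ag.StableSmoothability
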