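import Pool.Agent.H67.AS.Two

/-!
# Growth rates of disjoint unions of products of several finite schemes

Let `Γ_i = Spec A_i`, `i < m`, be finite schemes over an algebraically closed field, of degrees
`d_i`. For an exponent `β ∈ ℕ^m` let `Γ^β = Γ_0^{β_0} × ⋯ × Γ_{m-1}^{β_{m-1}}`, and let
`rate Γ` be the limit (and infimum) of `(deg Γ^n + δ(Γ^n))^{1/n}`; Q1 holds for `Γ` if and only if
`rate Γ = deg Γ`. Let `K` be the set of all `x ∈ [0, ∞)^m` with `∏ x_i^{β_i} ≤ rate (Γ^β)` for all
`β`. It is compact, convex in logarithmic coordinates and contains `d`.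

The growth rate of every disjoint union `U = ⊔_j Γ^{α_j}` of products is the maximum on `K` of the
polynomial `∑_j x^{α_j}`. Hence Q1 holds for `U` if and only if this polynomial takes its maximum
on `K` at the point `d`, and there is a Schönhage type inequality, which gives: if Q1 holds for
`Γ ⊔ Γ'` then it holds for `Γ^{deg Γ} × Γ'^{deg Γ'}`.
-/

set_option autoImplicit false
set_option linter.unusedSectionVars false

namespace Pool.Agent.Results.MP_44217d_ag.UnionsOfProducts

open scoped TensorProduct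
open Pool.Agent.H826R3.SM Pool.Agent.TH671.DU Pool.Agent.H67.AS

/-- The set of all points `x` with nonnegative coordinates such that `∏ x_i^{β_i}` is at most the
growth rate of `Γ^β` for every exponent `β`. -/
def Body (k : Type) [Field k] {m : ℕ} (A : Fin m → Type) [∀ i, CommRing (A i)]
    [∀ i, Algebra k (A i)] : Set (Fin m → ℝ) :=
  {x | (∀ i, 0 ≤ x i) ∧ ∀ β : Fin m → ℕ, ∏ i, x i ^ β i ≤ rate k (Prd k A β)}

/-- The polynomial `∑_j x^{α_j}` of the disjoint union of the products `Γ^{α_j}`. -/
noncomputable def Pol {m : ℕ} {κ : Type} [Fintype κ] (α : κ → Fin m → ℕ) (x : Fin m → ℝ) : ℝ :=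
  ∑ j, ∏ i, x i ^ α j i

/-- The degrees of the schemes `Spec (A i)`. -/
noncomputable def Deg (k : Type) [Field k] {m : ℕ} (A : Fin m → Type) [∀ i, CommRing (A i)]
    [∀ i, Algebra k (A i)] : Fin m → ℝ := fun i => (Module.finrank k (A i) : ℝ)

section defs

variable (k : Type) [Field k] {m : ℕ} (A : Fin m → Type) [∀ i, CommRing (A i)]
  [∀ i, Algebra k (A i)]

/-- The body is compact, closed under weighted geometric means and under decreasing the
coordinates, and contains the vector of the degrees. -/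
def BodyShape : Prop :=
  IsCompact (Body k A) ∧ Deg k A ∈ Body k A ∧
    (∀ x ∈ Body k A, ∀ y ∈ Body k A, ∀ s : ℝ, 0 ≤ s → s ≤ 1 →
      (fun i => x i ^ s * y i ^ (1 - s)) ∈ Body k A) ∧
    (∀ x ∈ Body k A, ∀ y : Fin m → ℝ, (∀ i, 0 ≤ y i ∧ y i ≤ x i) → y ∈ Body k A)

variable {κ : Type} [Fintype κ] (α : κ → Fin m → ℕ)

/-- The growth rate of the union of the `Γ^{α_j}` is the maximum of `∑_j x^{α_j}` on the body, and
Q1 holds for the union if and only if the maximum is taken at the vector of degrees. -/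
def RateFormula : Prop :=
  IsGreatest (Pol α '' Body k A) (rate k (Uni k A α)) ∧
    (QOne k (Uni k A α) ↔ ∀ x ∈ Body k A, Pol α x ≤ Pol α (Deg k A))

/-- Q1 passes from the union for `α` to that for `α'` if `∑_j x^{α_j} ≤ ∑_j d^{α_j}` implies
`∑_j x^{α'_j} ≤ ∑_j d^{α'_j}` for all `x` with nonnegative coordinates. -/
def Transfer : Prop :=
  ∀ (κ' : Type) [Fintype κ'] [Nonempty κ'] (α' : κ' → Fin m → ℕ),
    (∀ x : Fin m → ℝ, (∀ i, 0 ≤ x i) → Pol α x ≤ Pol α (Deg k A) →
      Pol α' x ≤ Pol α' (Deg k A)) →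
    QOne k (Uni k A α) → QOne k (Uni k A α')

/-- For all weights `n_j ∈ ℕ` with sum `N`, the number `N ^ N` times the growth rate of the product
of the schemes `(Γ^{α_j})^{n_j}` is at most `∏_j n_j ^ n_j` times the `N`-th power of the growth
rate of the union. -/
def TauInequality : Prop :=
  ∀ n : κ → ℕ, ((∑ j, n j : ℕ) : ℝ) ^ (∑ j, n j) * rate k (Prd k A (∑ j, n j • α j)) ≤
    (∏ j, (n j : ℝ) ^ n j) * rate k (Uni k A α) ^ (∑ j, n j)

/-- The exponent of the product of the schemes `(Γ^{α_j})^{deg Γ^{α_j}}`. -/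
noncomputable def gradientExponent : Fin m → ℕ :=
  ∑ j, (∏ i, Module.finrank k (A i) ^ α j i) • α j

end defs

section

variable (k : Type) [Field k] [IsAlgClosed k] {m : ℕ} (A : Fin m → Type) [∀ i, CommRing (A i)]
  [∀ i, Algebra k (A i)] [∀ i, Module.Finite k (A i)] [∀ i, Nontrivial (A i)]

theorem body_eq : Body k A = K (R fun β : Fin m → ℕ => mdeg k (Prd k A β)) := by
  ext x
  simp only [Body, K, Set.mem_ofPred_eq, rate_prd]
  rfl

theorem deg_mem_body : Deg k A ∈ Body k A := by
  rw [body_eq]
  exact deg_mem A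

variable {κ : Type} [Fintype κ] [Nonempty κ] (α : κ → Fin m → ℕ)

theorem greatest : IsGreatest (Pol α '' Body k A) (rate k (Uni k A α)) := by
  rw [body_eq, rate_uni]
  exact (sub_mdeg A).isGreatest_U α

theorem qone_iff : QOne k (Uni k A α) ↔ ∀ x ∈ Body k A, Pol α x ≤ Pol α (Deg k A) := by
  have := nontrivial_uni (k := k) A α
  have hg := greatest k A α
  have hd : ((Module.finrank k (Uni k A α) : ℕ) : ℝ) = Pol α (Deg k A) := finrank_uni_cast A α
  rw [qOne_iff_rate, hd]
  constructor
  · intro h x hx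
    rw [← h]
    exact hg.2 ⟨x, hx, rfl⟩
  · intro h
    refine le_antisymm ?_ (hg.2 ⟨_, deg_mem_body k A, rfl⟩)
    obtain ⟨x, hx, hxe⟩ := hg.1
    rw [← hxe]
    exact h x hx

theorem qone_prd (β : Fin m → ℕ) :
    QOne k (Prd k A β) ↔ rate k (Prd k A β) = ∏ i, (Module.finrank k (A i) : ℝ) ^ β i := by
  have := nontrivial_prd (k := k) A β
  have hd : ((Module.finrank k (Prd k A β) : ℕ) : ℝ) =
    ∏ i, (Module.finrank k (A i) : ℝ) ^ β i := finrank_prd_cast A β
  rw [qOne_iff_rate, hd]

theorem schoenhage' (n : κ → ℕ) :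
    ((∑ j, n j : ℕ) : ℝ) ^ (∑ j, n j) * rate k (Prd k A (∑ j, n j • α j)) ≤
      (∏ j, (n j : ℝ) ^ n j) * rate k (Uni k A α) ^ (∑ j, n j) := by
  rw [rate_prd, rate_uni]
  exact (sub_mdeg A).schoenhage α n

theorem qone_gradient (h : QOne k (Uni k A α)) :
    QOne k (Prd k A (∑ j, (∏ i, Module.finrank k (A i) ^ α j i) • α j)) := by
  have hnt := nontrivial_uni (k := k) A α
  set n : κ → ℕ := fun j => ∏ i, Module.finrank k (A i) ^ α j i with hn
  have hd : Module.finrank k (Uni k A α) = ∑ j, n j := by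
    rw [Module.finrank_pi_fintype]
    exact Finset.sum_congr rfl fun j _ => finrank_prd A (α j)
  have h1 := schoenhage' k A α n
  rw [qOne_iff_rate, hd] at h
  rw [h, mul_comm, mul_comm (∏ j, (n j : ℝ) ^ n j)] at h1
  have hN : (0 : ℝ) < ((∑ j, n j : ℕ) : ℝ) ^ (∑ j, n j) := by
    refine pow_pos ?_ _
    rw [← hd]
    exact_mod_cast (Module.finrank_pos (R := k) (M := Uni k A α))
  rw [mul_comm _ (∏ j, (n j : ℝ) ^ n j)] at h1
  have h2 : rate k (Prd k A (∑ j, n j • α j)) ≤ ∏ j, (n j : ℝ) ^ n j :=
    le_of_mul_le_mul_right h1 hN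
  rw [qone_prd]
  have hnt' := nontrivial_prd (k := k) A (∑ j, n j • α j)
  have h3 : ∏ i, (Module.finrank k (A i) : ℝ) ^ (∑ j, n j • α j) i = ∏ j, (n j : ℝ) ^ n j := by
    have h4 := mon_sum Finset.univ (fun i => (Module.finrank k (A i) : ℝ)) fun j => n j • α j
    change mon (fun i => (Module.finrank k (A i) : ℝ)) (∑ j, n j • α j) = _
    rw [h4]
    refine Finset.prod_congr rfl fun j _ => ?_
    rw [mon_nsmul]
    congr 1
    rw [hn]
    unfold mon
    push_cast
    rfl
  rw [h3]
  refine le_antisymm h2 ?_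
  rw [← h3]
  have h5 := finrank_le_rate (k := k) (Prd k A (∑ j, n j • α j))
  rwa [finrank_prd_cast] at h5

end

theorem qone_two (k : Type) [Field k] [IsAlgClosed k] (A B : Type) [CommRing A] [Algebra k A]
    [Module.Finite k A] [Nontrivial A] [CommRing B] [Algebra k B] [Module.Finite k B]
    [Nontrivial B] (h : QOne k (A × B)) :
    QOne k (Pow k A (Module.finrank k A) ⊗[k] Pow k B (Module.finrank k B)) := by
  have hfin := instTwoFin k A B
  have hnt := instTwoNt A B
  have hu := nontrivial_uni (k := k) (Two A B) (fun j : Fin 2 => Pi.single j 1)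
  have hnA : Nontrivial (A × B) := inferInstance
  have h1 : QOne k (Uni k (Two A B) (fun j : Fin 2 => Pi.single j 1)) :=
    (qOne_congr (twoUni k A B)).2 h
  have h2 := qone_gradient k (Two A B) (fun j : Fin 2 => Pi.single j 1) h1
  set β : Fin 2 → ℕ := ∑ j : Fin 2, (∏ i, Module.finrank k (Two A B i) ^
    (Pi.single j 1 : Fin 2 → ℕ) i) • (Pi.single j 1 : Fin 2 → ℕ) with hβ
  have h3 : β = fun i => Module.finrank k (Two A B i) := by
    rw [hβ, Fin.sum_univ_two]
    funext i
    fin_cases i <;> simp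
  rw [h3] at h2
  have hp := nontrivial_prd (k := k) (Two A B) (fun i => Module.finrank k (Two A B i))
  have e := twoPrd k A B fun i => Module.finrank k (Two A B i)
  have hq : Nontrivial (Pow k A (Module.finrank k (Two A B 0)) ⊗[k]
      Pow k B (Module.finrank k (Two A B 1))) := e.injective.nontrivial
  exact (qOne_congr e).1 h2

/-- **Growth rates of disjoint unions of products.** Let `Γ_i = Spec (A i)`, `i < m`, be nonempty
finite schemes over an algebraically closed field `k`.

1. The set `Body k A` is compact, closed under weighted geometric means and under decreasing the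
   coordinates, and contains the vector of the degrees.
2. For every exponent `β` the growth rate of the product `Γ^β` is the maximum of `x^β` on it.
3. For every nonempty finite family of exponents `α_j` the growth rate of the disjoint union of the
   products `Γ^{α_j}` is the maximum of `∑_j x^{α_j}` on it.
4. Q1 holds for this disjoint union if and only if the maximum is taken at the vector of degrees.
5. Q1 passes from one disjoint union to another one if `∑_j x^{α_j} ≤ ∑_j d^{α_j}` implies
   `∑_j x^{α'_j} ≤ ∑_j d^{α'_j}` for all `x` with nonnegative coordinates.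
6. For all weights `n_j ∈ ℕ` with sum `N` the growth rate of the product of the schemes
   `(Γ^{α_j})^{n_j}` is at most `∏_j (n_j / N)^{n_j}` times the `N`-th power of that of the union.
7. If Q1 holds for the disjoint union of the `Γ^{α_j}` then it holds for the product of the
   `(Γ^{α_j})^{deg Γ^{α_j}}`.
8. In particular, if Q1 holds for `Γ ⊔ Γ'` then it holds for `Γ^{deg Γ} × Γ'^{deg Γ'}`. -/
theorem result (k : Type) [Field k] [IsAlgClosed k] :
    (∀ (m : ℕ) (A : Fin m → Type) [∀ i, CommRing (A i)] [∀ i, Algebra k (A i)]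
      [∀ i, Module.Finite k (A i)] [∀ i, Nontrivial (A i)],
      BodyShape k A ∧
      (∀ β : Fin m → ℕ, IsGreatest ((fun x : Fin m → ℝ => ∏ i, x i ^ β i) '' Body k A)
        (rate k (Prd k A β))) ∧
      (∀ (κ : Type) [Fintype κ] [Nonempty κ] (α : κ → Fin m → ℕ),
        RateFormula k A α ∧ Transfer k A α ∧ TauInequality k A α ∧
        (QOne k (Uni k A α) → QOne k (Prd k A (gradientExponent k A α))))) ∧
    (∀ (A B : Type) [CommRing A] [Algebra k A] [Module.Finite k A] [Nontrivial A]
      [CommRing B] [Algebra k B] [Module.Finite k B] [Nontrivial B],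
      QOne k (A × B) →
        QOne k (Pow k A (Module.finrank k A) ⊗[k] Pow k B (Module.finrank k B))) := by
  refine ⟨?_, fun A B _ _ _ _ _ _ _ _ h => qone_two k A B h⟩
  intro m A _ _ _ _
  refine ⟨⟨?_, deg_mem_body k A, ?_, ?_⟩, ?_, ?_⟩
  · rw [body_eq]
    exact isCompact_K _
  · intro x hx y hy s hs0 hs1
    rw [body_eq] at hx hy ⊢
    exact K_log _ hx hy hs0 hs1
  · intro x hx y hy
    rw [body_eq] at hx ⊢
    exact K_down _ hx (fun i => (hy i).1) fun i => (hy i).2
  · intro β
    rw [body_eq, rate_prd]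
    exact (sub_mdeg A).isGreatest_R β
  · intro κ _ _ α
    refine ⟨⟨greatest k A α, qone_iff k A α⟩, ?_, schoenhage' k A α, qone_gradient k A α⟩
    intro κ' _ _ α' himp hQ
    rw [qone_iff] at hQ ⊢
    exact fun x hx => himp x hx.1 (hQ x hx)

end Pool.Agent.Results.MP_44217d_ag.UnionsOfProducts
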